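import Pool.Agent.Results.MP_173de9_an.LargeExponents
import Pool.Agent.Run7.h963.Low

/-!
# The `L_p` star discrepancy for all exponents and the tail of the local discrepancy

The page asks for the order of `D(m,d)_∞`.  Here one set of `m` points is found for which all the
`L_p` norms of the local discrepancy are at most
`C (√p (ln m)^((d-1)/2) + p^(d/2) (ln m)^((d-2)/2)) / m`, `1 ≤ p < ∞`.  For `p = ln m` this is the
classical upper bound `(ln m)^(d-1) / m` of `D(m,d)_∞`; for `p ≤ (ln m)^(1/(d-1))` it is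
`√p (ln m)^((d-1)/2) / m`, and together with the lower bound of `LargeExponents` this gives the
exact order of the optimal `L_p` star discrepancy in the whole range
`1 ≤ p ≤ (ln m)^(1/d) / ln ln m` in which the lower bound grows like `√p`.  The distribution
function of the local discrepancy has a subgaussian tail in the corresponding range.

The points are a digital `(0, n, d)`-net with digits reversed at random.  For every fixed corner the
local discrepancy is a homogeneous polynomial of degree `d` in `d` independent families of signs;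
the point is that its coefficient tensor has bounded sums along all the lines parallel to the axes,
for every corner.  All the matrices obtained from the tensor have then small norms, and the moments
of the polynomial are controlled by induction, with a moment inequality for quadratic forms in signs
and trace moments of random matrices.
-/

set_option autoImplicit false

namespace Pool.Agent.Results.MP_173de9_an.AllExponents

open MeasureTheory

/-- The local discrepancy `∏ x_j - Σ_μ λ_μ χ_{[0,x]}(ξ^μ)` of the points `ξ` with the weights `λ`. -/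
noncomputable def localDisc {m d : ℕ} (lam : Fin m → ℝ) (ξ : Fin m → Fin d → ℝ) (x : Fin d → ℝ) : ℝ :=
  ∏ j, x j - ∑ μ : Fin m, lam μ * (Set.Icc (0 : Fin d → ℝ) x).indicator (fun _ => (1:ℝ)) (ξ μ)

/-- The `L_p` norm of the weighted local discrepancy over `[0,1]^d`. -/
noncomputable def starDisc (p : ENNReal) {m d : ℕ} (lam : Fin m → ℝ) (ξ : Fin m → Fin d → ℝ) :
    ENNReal :=
  eLpNorm (localDisc lam ξ) p (volume.restrict (Set.Icc (0 : Fin d → ℝ) 1))

/-- `D(m,d)_p`: the infimum over all `m`-point sets (repetitions allowed) in `[0,1]^d`, all weights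
equal to `1 / m`. -/
noncomputable def optDisc (p : ENNReal) (m d : ℕ) : ENNReal :=
  ⨅ (ξ : Fin m → Fin d → ℝ) (_ : ∀ μ, ξ μ ∈ Set.Icc (0 : Fin d → ℝ) 1),
    starDisc p (fun _ => 1 / (m:ℝ)) ξ

/-- The infimum over all `m`-point sets in `[0,1]^d` and all real weights. -/
noncomputable def optWeighted (p : ENNReal) (m d : ℕ) : ENNReal :=
  ⨅ (lam : Fin m → ℝ) (ξ : Fin m → Fin d → ℝ) (_ : ∀ μ, ξ μ ∈ Set.Icc (0 : Fin d → ℝ) 1),
    starDisc p lam ξ

theorem localDisc_eq {m d : ℕ} (ξ : Fin m → Fin d → ℝ) :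
    localDisc (fun _ => 1 / (m : ℝ)) ξ = H730R2.LU.ld ξ := by
  funext x
  unfold localDisc H730R2.LU.ld
  rw [← Finset.mul_sum]

theorem log_three : (12 / 11 : ℝ) ≤ Real.log 3 := by
  have h1 : Real.log 3 = 1 + Real.log (3 / Real.exp 1) := by
    rw [Real.log_div (by norm_num) (Real.exp_pos 1).ne', Real.log_exp]; ring
  have h2 := Real.one_sub_inv_le_log_of_pos (x := 3 / Real.exp 1) (by positivity)
  rw [inv_div] at h2
  have h3 := Real.exp_one_lt_d9
  rw [h1]
  linarith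

/-- the double logarithm is bounded away from zero -/
theorem loglog {m : ℕ} (hm : 3 ≤ m) : (1 / 12 : ℝ) ≤ Real.log (Real.log m) := by
  have hm3 : (3 : ℝ) ≤ m := by exact_mod_cast hm
  have h1 : (12 / 11 : ℝ) ≤ Real.log m := log_three.trans (Real.log_le_log (by norm_num) hm3)
  have h2 : Real.log (12 / 11) ≤ Real.log (Real.log m) := Real.log_le_log (by norm_num) h1
  have h3 := Real.one_sub_inv_le_log_of_pos (x := (12 / 11 : ℝ)) (by norm_num)
  norm_num at h3
  linarith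

/-- from a lower bound of the norm to a lower bound of the integral -/
theorem int_ge {k m N : ℕ} (hm : 1 ≤ m) (hN : 1 ≤ N) (ξ : Fin m → Fin (k + 1) → ℝ) (a : ℝ)
    (ha : 0 < a)
    (h : ENNReal.ofReal (a / m) ≤ eLpNorm (H730R2.LU.ld ξ) ((2 * N : ℕ) : ENNReal)
      (volume.restrict (Set.Icc (0 : Fin (k + 1) → ℝ) 1))) :
    ENNReal.ofReal (a ^ (2 * N)) ≤ ∫⁻ x in Set.Icc (0 : Fin (k + 1) → ℝ) 1,
      ENNReal.ofReal (|(m : ℝ) * H730R2.LU.ld ξ x| ^ (2 * N)) := by
  by_contra hcon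
  push Not at hcon
  have hm0 : (0 : ℝ) < m := by exact_mod_cast hm
  obtain ⟨I, hI⟩ : ∃ I : ENNReal, I = ∫⁻ x in Set.Icc (0 : Fin (k + 1) → ℝ) 1,
      ENNReal.ofReal (|(m : ℝ) * H730R2.LU.ld ξ x| ^ (2 * N)) := ⟨_, rfl⟩
  rw [← hI] at hcon
  have hfin : I ≠ ⊤ := (hcon.trans_le le_top).ne
  obtain ⟨B, hB⟩ : ∃ B : ℝ, B = I.toReal ^ ((1 : ℝ) / ((2 * N : ℕ) : ℝ)) := ⟨_, rfl⟩
  have hpos : (0 : ℝ) < ((2 * N : ℕ) : ℝ) := by exact_mod_cast (by omega : 0 < 2 * N)
  have hB0 : 0 ≤ B := by rw [hB]; exact Real.rpow_nonneg ENNReal.toReal_nonneg _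
  have hBI : B ^ (2 * N) = I.toReal := by
    rw [hB, ← Real.rpow_natCast, ← Real.rpow_mul ENNReal.toReal_nonneg,
      one_div_mul_cancel hpos.ne', Real.rpow_one]
  have h1 := Run7.h963.norm_le hm hN ξ B hB0 (by
    rw [← hI, hBI, ENNReal.ofReal_toReal hfin])
  have h2 : B ^ (2 * N) < a ^ (2 * N) := by
    rw [hBI]
    have := (ENNReal.toReal_lt_toReal hfin ENNReal.ofReal_ne_top).2 hcon
    rwa [ENNReal.toReal_ofReal (by positivity)] at this
  have h3 : B < a := lt_of_pow_lt_pow_left₀ _ ha.le h2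
  have h4 : ENNReal.ofReal (B / m) < ENNReal.ofReal (a / m) := by
    rw [ENNReal.ofReal_lt_ofReal_iff (by positivity)]
    exact div_lt_div_of_pos_right h3 hm0
  exact absurd (h.trans h1) (not_le.2 h4)

/-- Let `d ≥ 3`.  There are constants `c, C > 0` such that for every `m ≥ 3`, with `L = ln m`:

* for all `1 ≤ p ≤ L^(1/d) / ln L`, the optimal `L_p` star discrepancy of `m` points (and also with
  arbitrary real weights) is between `c √p L^((d-1)/2) / m` and `C √p L^((d-1)/2) / m`;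
* there is one set of `m` points such that for all real `p ≥ 1` its `L_p` star discrepancy is at
  most `C (√p L^((d-1)/2) + p^(d/2) L^((d-2)/2)) / m`; the local discrepancy is larger than
  `t L^((d-1)/2) / m` in absolute value only on a set of measure at most
  `C exp (-c min (t², (t √L)^(2/d)))`, for all `t ≥ 0`, and it is larger than
  `c t L^((d-1)/2) / m` on a set of measure at least `exp (-C t²)` for all `t ≥ 1` with
  `t² ≤ L^(1/d) / ln L`. -/
theorem result (d : ℕ) (hd : 3 ≤ d) :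
    ∃ c C : ℝ, 0 < c ∧ 0 < C ∧ ∀ m : ℕ, 3 ≤ m →
      (∀ p : ℝ, 1 ≤ p → p ≤ (Real.log m) ^ (1 / (d : ℝ)) / Real.log (Real.log m) →
        ENNReal.ofReal (c * Real.sqrt p * (Real.log m) ^ (((d : ℝ) - 1) / 2) / m) ≤
          optWeighted (ENNReal.ofReal p) m d ∧
        optWeighted (ENNReal.ofReal p) m d ≤ optDisc (ENNReal.ofReal p) m d ∧
        optDisc (ENNReal.ofReal p) m d ≤
          ENNReal.ofReal (C * Real.sqrt p * (Real.log m) ^ (((d : ℝ) - 1) / 2) / m)) ∧
      ∃ ξ : Fin m → Fin d → ℝ, (∀ μ, ξ μ ∈ Set.Icc (0 : Fin d → ℝ) 1) ∧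
        (∀ p : ℝ, 1 ≤ p → starDisc (ENNReal.ofReal p) (fun _ => 1 / (m : ℝ)) ξ ≤
          ENNReal.ofReal (C * (Real.sqrt p * (Real.log m) ^ (((d : ℝ) - 1) / 2) +
            p ^ ((d : ℝ) / 2) * (Real.log m) ^ (((d : ℝ) - 2) / 2)) / m)) ∧
        (∀ t : ℝ, 0 ≤ t → volume {x ∈ Set.Icc (0 : Fin d → ℝ) 1 |
            t * (Real.log m) ^ (((d : ℝ) - 1) / 2) / m < |localDisc (fun _ => 1 / (m : ℝ)) ξ x|} ≤
          ENNReal.ofReal (C * Real.exp (-(c *
            min (t ^ 2) ((t * Real.sqrt (Real.log m)) ^ (2 / (d : ℝ))))))) ∧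
        (∀ t : ℝ, 1 ≤ t → t ^ 2 ≤ (Real.log m) ^ (1 / (d : ℝ)) / Real.log (Real.log m) →
          ENNReal.ofReal (Real.exp (-(C * t ^ 2))) ≤ volume {x ∈ Set.Icc (0 : Fin d → ℝ) 1 |
            c * t * (Real.log m) ^ (((d : ℝ) - 1) / 2) / m <
              |localDisc (fun _ => 1 / (m : ℝ)) ξ x|}) := by
  obtain ⟨k, rfl⟩ : ∃ k, d = k + 1 := ⟨d - 1, by omega⟩
  obtain ⟨C₀, hC₀, hU⟩ := Run7.h963.upper2 k (by omega)
  obtain ⟨c₁, hc₁, hLow⟩ := LargeExponents.result (k + 1) hd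
  have hd1 : (((k + 1 : ℕ) : ℝ) - 1) / 2 = (k : ℝ) / 2 := by push_cast; ring
  have hd2 : (((k + 1 : ℕ) : ℝ) - 2) / 2 = ((k : ℝ) - 1) / 2 := by push_cast; ring
  have hd3 : ((k + 1 : ℕ) : ℝ) / 2 = ((k : ℝ) + 1) / 2 := by push_cast; ring
  have hd4 : 2 / ((k + 1 : ℕ) : ℝ) = 2 / ((k : ℝ) + 1) := by push_cast; ring
  rw [hd1, hd2, hd3, hd4]
  rw [hd1] at hLow
  have hd0 : (0 : ℝ) < ((k + 1 : ℕ) : ℝ) := by positivity
  have hdc : ((k + 1 : ℕ) : ℝ) = (k : ℝ) + 1 := by push_cast; ring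
  obtain ⟨C₁, hC₁⟩ : ∃ C₁ : ℝ, C₁ = 2 ^ (k + 1) * C₀ := ⟨_, rfl⟩
  have hC₁1 : 1 ≤ C₁ := by
    rw [hC₁]; exact one_le_mul_of_one_le_of_one_le (one_le_pow₀ (by norm_num)) hC₀
  -- the constants
  obtain ⟨b₁, hb₁⟩ : ∃ b₁ : ℝ, b₁ = C₀ * (2 + 4 * 48 ^ k) := ⟨_, rfl⟩
  have hb₁1 : 1 ≤ b₁ := by
    rw [hb₁]
    have : (0 : ℝ) < 48 ^ k := by positivity
    exact one_le_mul_of_one_le_of_one_le hC₀ (by linarith)
  obtain ⟨ρ, hρ⟩ : ∃ ρ : ℝ, ρ = min (c₁ / b₁) 1 := ⟨_, rfl⟩
  have hρ0 : 0 < ρ := by rw [hρ]; exact lt_min (by positivity) one_pos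
  have hρ1 : ρ ≤ 1 := by rw [hρ]; exact min_le_right _ _
  obtain ⟨c, hc⟩ : ∃ c : ℝ, c = min (c₁ / 2) (1 / (16 * C₀ ^ 2)) := ⟨_, rfl⟩
  have hc0 : 0 < c := by
    rw [hc]; exact lt_min (by positivity) (by positivity)
  have hcc1 : c ≤ c₁ / 2 := by rw [hc]; exact min_le_left _ _
  have hcc2 : c ≤ 1 / (16 * C₀ ^ 2) := by rw [hc]; exact min_le_right _ _
  obtain ⟨C, hC⟩ : ∃ C : ℝ, C = C₁ * (1 + 12 ^ k) + Real.exp 1 + (3 - 8 * Real.log ρ) := ⟨_, rfl⟩
  have hlρ : Real.log ρ ≤ 0 := Real.log_nonpos hρ0.le hρ1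
  have h12 : (1 : ℝ) ≤ 12 ^ k := one_le_pow₀ (by norm_num)
  have hCa : C₁ * (1 + 12 ^ k) ≤ C := by
    rw [hC]
    have := Real.exp_pos 1
    linarith
  have hCC1 : C₁ ≤ C := by
    refine le_trans ?_ hCa
    exact le_mul_of_one_le_right (by linarith) (by linarith)
  have hC0 : 0 < C := by linarith
  have hCe : Real.exp 1 ≤ C := by
    rw [hC]
    have : 0 ≤ C₁ * (1 + 12 ^ k) := by positivity
    linarith
  have hCl : 3 - 8 * Real.log ρ ≤ C := by
    rw [hC]
    have : 0 ≤ C₁ * (1 + 12 ^ k) := by positivity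
    have := Real.exp_pos 1
    linarith
  refine ⟨c, C, hc0, hC0, fun m hm => ?_⟩
  have hm3 : (3 : ℝ) ≤ m := by exact_mod_cast hm
  have hm0 : (0 : ℝ) < m := by linarith
  have hlog3 : (12 / 11 : ℝ) ≤ Real.log m := log_three.trans (Real.log_le_log (by norm_num) hm3)
  have hll := loglog hm
  obtain ⟨ξ, hξ, hξb, hξN⟩ := hU m hm
  have hLowm := hLow m hm
  obtain ⟨L, hL⟩ : ∃ L : ℝ, L = Real.log m := ⟨_, rfl⟩
  have hξN' : ∀ N : ℕ, 1 ≤ N → (N : ℝ) ≤ Real.log m + 2 →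
        ∫⁻ x in Set.Icc (0 : Fin (k + 1) → ℝ) 1,
          ENNReal.ofReal (|(m : ℝ) * H730R2.LU.ld ξ x| ^ (2 * N)) ≤
          ENNReal.ofReal ((C₀ * (Real.sqrt (N * (Real.log m) ^ k) +
            Real.sqrt ((N : ℝ) ^ (k + 1) * (Real.log m) ^ (k - 1)))) ^ (2 * N)) :=
    fun N h1 h2 => hξN N h1 (by linarith)
  have hnorms := Run7.h963.norms (by omega) hm ξ C₀ hC₀ hξb hξN'
  have htail := Run7.h963.tail (by omega) hm ξ C₀ hC₀ hξb hξN'
  rw [← hC₁] at hnorms
  rw [← hL] at hlog3 hll hξb hξN hLowm hnorms htail ⊢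
  have hL1 : 1 ≤ L := by linarith
  have hL0 : 0 < L := by linarith
  have hll0 : 0 < Real.log L := by linarith
  have hk0 : (0 : ℝ) ≤ k := Nat.cast_nonneg k
  -- the range
  obtain ⟨Q, hQ⟩ : ∃ Q : ℝ, Q = L ^ (1 / ((k + 1 : ℕ) : ℝ)) / Real.log L := ⟨_, rfl⟩
  obtain ⟨R, hR⟩ : ∃ R : ℝ, R = L ^ (1 / (2 * ((k + 1 : ℕ) : ℝ))) / (Real.log L) ^ (1 / 2 : ℝ) :=
    ⟨_, rfl⟩
  rw [← hQ]
  rw [← hR] at hLowm
  have hR0 : 0 ≤ R := by rw [hR]; positivity
  have hRQ : R ^ 2 = Q := by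
    rw [hR, hQ, div_pow, ← Real.rpow_natCast (L ^ (1 / (2 * ((k + 1 : ℕ) : ℝ)))) 2,
      ← Real.rpow_mul hL0.le, ← Real.rpow_natCast ((Real.log L) ^ (1 / 2 : ℝ)) 2,
      ← Real.rpow_mul hll0.le]
    congr 1
    · congr 1
      push_cast
      field_simp
    · norm_num
  have hQ12 : Q ≤ 12 * L ^ (1 / ((k + 1 : ℕ) : ℝ)) := by
    rw [hQ, div_le_iff₀ hll0]
    have h1 : 0 ≤ L ^ (1 / ((k + 1 : ℕ) : ℝ)) := by positivity
    have h2 := mul_le_mul_of_nonneg_left (show 1 ≤ 12 * Real.log L by linarith) h1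
    linarith
  have hLd : (L ^ (1 / ((k + 1 : ℕ) : ℝ))) ^ k ≤ L := by
    rw [← Real.rpow_natCast, ← Real.rpow_mul hL0.le]
    calc L ^ (1 / ((k + 1 : ℕ) : ℝ) * (k : ℝ)) ≤ L ^ (1 : ℝ) := by
          apply Real.rpow_le_rpow_of_exponent_le hL1
          rw [hdc, one_div_mul_eq_div, div_le_one (by positivity)]
          linarith
      _ = L := Real.rpow_one _
  have hLd1 : L ^ (1 / ((k + 1 : ℕ) : ℝ)) ≤ L := by
    calc L ^ (1 / ((k + 1 : ℕ) : ℝ)) ≤ L ^ (1 : ℝ) := by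
          apply Real.rpow_le_rpow_of_exponent_le hL1
          rw [hdc, div_le_one (by positivity)]
          linarith
      _ = L := Real.rpow_one _
  refine ⟨fun p hp1 hp2 => ?_, ξ, hξ, fun p hp1 => ?_, fun t ht => ?_, fun t ht1 ht2 => ?_⟩
  · -- the exact order
    obtain ⟨h1, h2⟩ := hLowm (ENNReal.ofReal p) (by
      rw [← ENNReal.ofReal_one]; exact ENNReal.ofReal_le_ofReal hp1)
    refine ⟨?_, h2, (iInf₂_le ξ hξ).trans ?_⟩
    · refine le_trans ?_ h1
      have hsq : Real.sqrt p ≤ R := by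
        rw [Real.sqrt_le_left hR0, hRQ]; exact hp2
      have hmin : ENNReal.ofReal (Real.sqrt p) ≤ min ((ENNReal.ofReal p) ^ (1 / 2 : ℝ))
          (ENNReal.ofReal R) := by
        refine le_min ?_ (ENNReal.ofReal_le_ofReal hsq)
        rw [ENNReal.ofReal_rpow_of_nonneg (by linarith) (by norm_num), ← Real.sqrt_eq_rpow]
      calc ENNReal.ofReal (c * Real.sqrt p * L ^ ((k : ℝ) / 2) / m)
          ≤ ENNReal.ofReal (c₁ * Real.sqrt p * L ^ ((k : ℝ) / 2) / m) := by
            apply ENNReal.ofReal_le_ofReal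
            have : c ≤ c₁ := by linarith
            gcongr
        _ = ENNReal.ofReal (c₁ * L ^ ((k : ℝ) / 2) / m) * ENNReal.ofReal (Real.sqrt p) := by
            rw [← ENNReal.ofReal_mul (by positivity)]
            congr 1; ring
        _ ≤ _ := by gcongr
    · unfold starDisc
      rw [localDisc_eq]
      refine (hnorms p hp1).trans (ENNReal.ofReal_le_ofReal ?_)
      refine div_le_div_of_nonneg_right ?_ hm0.le
      have hp0 : 0 < p := by linarith
      have e1 : p ^ (((k : ℝ) + 1) / 2) * L ^ (((k : ℝ) - 1) / 2) ≤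
          12 ^ k * (Real.sqrt p * L ^ ((k : ℝ) / 2)) := by
        have f1 : p ^ k ≤ 12 ^ k * L := by
          calc p ^ k ≤ (12 * L ^ (1 / ((k + 1 : ℕ) : ℝ))) ^ k :=
                pow_le_pow_left₀ hp0.le (hp2.trans hQ12) k
            _ = 12 ^ k * (L ^ (1 / ((k + 1 : ℕ) : ℝ))) ^ k := mul_pow _ _ _
            _ ≤ 12 ^ k * L := mul_le_mul_of_nonneg_left hLd (by positivity)
        have f2 : p ^ ((k : ℝ) / 2) ≤ 12 ^ k * L ^ (1 / 2 : ℝ) := by
          have g1 : p ^ ((k : ℝ) / 2) = (p ^ k) ^ (1 / 2 : ℝ) := by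
            rw [← Real.rpow_natCast, ← Real.rpow_mul hp0.le]; congr 1; ring
          rw [g1]
          refine (Real.rpow_le_rpow (by positivity) f1 (by norm_num)).trans ?_
          rw [Real.mul_rpow (by positivity) hL0.le]
          refine mul_le_mul_of_nonneg_right ?_ (by positivity)
          calc ((12 : ℝ) ^ k) ^ (1 / 2 : ℝ) ≤ ((12 : ℝ) ^ k) ^ (1 : ℝ) :=
                Real.rpow_le_rpow_of_exponent_le h12 (by norm_num)
            _ = 12 ^ k := Real.rpow_one _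
        calc p ^ (((k : ℝ) + 1) / 2) * L ^ (((k : ℝ) - 1) / 2)
            = Real.sqrt p * (p ^ ((k : ℝ) / 2) * L ^ (((k : ℝ) - 1) / 2)) := by
              rw [Real.sqrt_eq_rpow, ← mul_assoc, ← Real.rpow_add hp0]
              congr 2; ring
          _ ≤ Real.sqrt p * ((12 ^ k * L ^ (1 / 2 : ℝ)) * L ^ (((k : ℝ) - 1) / 2)) := by
              gcongr
          _ = 12 ^ k * (Real.sqrt p * L ^ ((k : ℝ) / 2)) := by
              have : L ^ ((k : ℝ) / 2) = L ^ (1 / 2 : ℝ) * L ^ (((k : ℝ) - 1) / 2) := by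
                rw [← Real.rpow_add hL0]; congr 1; ring
              rw [this]; ring
      have e2 : 0 ≤ Real.sqrt p * L ^ ((k : ℝ) / 2) := by positivity
      calc C₁ * (Real.sqrt p * L ^ ((k : ℝ) / 2) +
            p ^ (((k : ℝ) + 1) / 2) * L ^ (((k : ℝ) - 1) / 2))
          ≤ C₁ * (Real.sqrt p * L ^ ((k : ℝ) / 2) + 12 ^ k * (Real.sqrt p * L ^ ((k : ℝ) / 2))) :=
            mul_le_mul_of_nonneg_left (by linarith) (by linarith)
        _ = (C₁ * (1 + 12 ^ k)) * (Real.sqrt p * L ^ ((k : ℝ) / 2)) := by ring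
        _ ≤ C * (Real.sqrt p * L ^ ((k : ℝ) / 2)) := mul_le_mul_of_nonneg_right hCa e2
        _ = _ := by ring
  · -- all the exponents
    unfold starDisc
    rw [localDisc_eq]
    refine (hnorms p hp1).trans (ENNReal.ofReal_le_ofReal ?_)
    have hp0 : 0 < p := by linarith
    gcongr
  · -- the tail
    have h1 := htail t ht
    have hset : {x ∈ Set.Icc (0 : Fin (k + 1) → ℝ) 1 | t * L ^ ((k : ℝ) / 2) / m <
        |localDisc (fun _ => 1 / (m : ℝ)) ξ x|} =
        {x ∈ Set.Icc (0 : Fin (k + 1) → ℝ) 1 | t * L ^ ((k : ℝ) / 2) <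
          |(m : ℝ) * H730R2.LU.ld ξ x|} := by
      ext x
      simp only [localDisc_eq, Set.mem_ofPred_eq]
      rw [abs_mul, abs_of_pos hm0, div_lt_iff₀ hm0, mul_comm (m : ℝ)]
    rw [hset]
    refine h1.trans (ENNReal.ofReal_le_ofReal ?_)
    refine mul_le_mul hCe (Real.exp_le_exp.2 (neg_le_neg ?_)) (Real.exp_pos _).le hC0.le
    refine mul_le_mul_of_nonneg_right hcc2 ?_
    exact le_min (sq_nonneg _) (by positivity)
  · -- the lower bound of the tail
    have hprob := N261.LP.isProbIcc (k + 1)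
    have ht0 : 0 < t := by linarith
    have ht2' : 1 ≤ t ^ 2 := one_le_pow₀ ht1
    set N : ℕ := ⌈t ^ 2⌉₊ with hNd
    have hN1 : 1 ≤ N := Nat.one_le_ceil_iff.2 (by linarith)
    have hNR : (1 : ℝ) ≤ N := by exact_mod_cast hN1
    have hNge : t ^ 2 ≤ N := Nat.le_ceil _
    have hNle : (N : ℝ) ≤ 2 * t ^ 2 := by
      have := (Nat.ceil_lt_add_one (a := t ^ 2) (by positivity)).le
      linarith
    have htR : t ≤ R := by
      refine (pow_le_pow_iff_left₀ ht0.le hR0 two_ne_zero).1 ?_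
      rw [hRQ]; exact ht2
    -- the lower bound of the moment
    have hlow1 : ENNReal.ofReal (c₁ * t * L ^ ((k : ℝ) / 2) / m) ≤
        eLpNorm (H730R2.LU.ld ξ) ((2 * N : ℕ) : ENNReal)
          (volume.restrict (Set.Icc (0 : Fin (k + 1) → ℝ) 1)) := by
      obtain ⟨h1, h2⟩ := hLowm ((2 * N : ℕ) : ENNReal) (by
        exact_mod_cast (by omega : 1 ≤ 2 * N))
      have h3 : LargeExponents.optDisc ((2 * N : ℕ) : ENNReal) m (k + 1) ≤
          eLpNorm (H730R2.LU.ld ξ) ((2 * N : ℕ) : ENNReal)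
          (volume.restrict (Set.Icc (0 : Fin (k + 1) → ℝ) 1)) := by
        rw [← localDisc_eq]
        exact iInf₂_le ξ hξ
      refine le_trans ?_ (h1.trans (h2.trans h3))
      have hmin : ENNReal.ofReal t ≤ min ((((2 * N : ℕ) : ENNReal)) ^ (1 / 2 : ℝ))
          (ENNReal.ofReal R) := by
        refine le_min ?_ (ENNReal.ofReal_le_ofReal htR)
        rw [← ENNReal.ofReal_natCast, ENNReal.ofReal_rpow_of_nonneg (by positivity) (by norm_num),
          ← Real.sqrt_eq_rpow]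
        apply ENNReal.ofReal_le_ofReal
        apply Real.le_sqrt_of_sq_le
        push_cast
        linarith
      calc ENNReal.ofReal (c₁ * t * L ^ ((k : ℝ) / 2) / m)
          = ENNReal.ofReal (c₁ * L ^ ((k : ℝ) / 2) / m) * ENNReal.ofReal t := by
            rw [← ENNReal.ofReal_mul (by positivity)]
            congr 1; ring
        _ ≤ _ := by gcongr
    have hlow2 := int_ge (by omega) hN1 ξ _ (by positivity) hlow1
    -- the upper bound of the moment
    have hNQ : (N : ℝ) ≤ 24 * L ^ (1 / ((k + 1 : ℕ) : ℝ)) := by linarith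
    have h2N : ((2 * N : ℕ) : ℝ) = 2 * (N : ℝ) := by push_cast; ring
    have h2N1 : ((2 * N : ℕ) : ℝ) ≤ 4 * t ^ 2 := by rw [h2N]; linarith
    have h2N2 : ((2 * N : ℕ) : ℝ) ≤ 48 * L ^ (1 / ((k + 1 : ℕ) : ℝ)) := by rw [h2N]; linarith
    have hup1 := hξN (2 * N) (by omega) (by linarith)
    have e4 : 2 * (2 * N) = 4 * N := by ring
    rw [e4] at hup1
    have hup2 : ∫⁻ x in Set.Icc (0 : Fin (k + 1) → ℝ) 1,
        ENNReal.ofReal (|(m : ℝ) * H730R2.LU.ld ξ x| ^ (4 * N)) ≤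
        ENNReal.ofReal ((b₁ * t * L ^ ((k : ℝ) / 2)) ^ (4 * N)) := by
      refine hup1.trans (ENNReal.ofReal_le_ofReal (pow_le_pow_left₀ (by positivity) ?_ _))
      have g0 : Real.sqrt (L ^ k) = L ^ ((k : ℝ) / 2) := by
        rw [Real.sqrt_eq_rpow, ← Real.rpow_natCast, ← Real.rpow_mul hL0.le]; congr 1; ring
      have g1 : Real.sqrt (((2 * N : ℕ) : ℝ) * L ^ k) ≤ 2 * (t * L ^ ((k : ℝ) / 2)) := by
        have f1 : ((2 * N : ℕ) : ℝ) * L ^ k ≤ (2 * t) ^ 2 * L ^ k := by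
          refine mul_le_mul_of_nonneg_right ?_ (by positivity)
          refine h2N1.trans (le_of_eq ?_)
          ring
        refine (Real.sqrt_le_sqrt f1).trans (le_of_eq ?_)
        rw [Real.sqrt_mul (by positivity), Real.sqrt_sq (by positivity), g0]; ring
      have g2 : Real.sqrt (((2 * N : ℕ) : ℝ) ^ (k + 1) * L ^ (k - 1)) ≤
          2 * (48 ^ k * (t * L ^ ((k : ℝ) / 2))) := by
        have f0 : ((2 * N : ℕ) : ℝ) ^ k ≤ 48 ^ k * L := by
          calc ((2 * N : ℕ) : ℝ) ^ k ≤ (48 * L ^ (1 / ((k + 1 : ℕ) : ℝ))) ^ k := by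
                exact pow_le_pow_left₀ (by positivity) h2N2 k
            _ = 48 ^ k * (L ^ (1 / ((k + 1 : ℕ) : ℝ))) ^ k := mul_pow _ _ _
            _ ≤ 48 ^ k * L := mul_le_mul_of_nonneg_left hLd (by positivity)
        have f1 : ((2 * N : ℕ) : ℝ) ^ (k + 1) * L ^ (k - 1) ≤ (2 * 48 ^ k * t) ^ 2 * L ^ k := by
          have f3 : (1 : ℝ) ≤ 48 ^ k := one_le_pow₀ (by norm_num)
          calc ((2 * N : ℕ) : ℝ) ^ (k + 1) * L ^ (k - 1)
              = ((2 * N : ℕ) : ℝ) * ((2 * N : ℕ) : ℝ) ^ k * L ^ (k - 1) := by rw [pow_succ]; ring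
            _ ≤ (4 * t ^ 2) * (48 ^ k * L) * L ^ (k - 1) :=
                mul_le_mul_of_nonneg_right (mul_le_mul h2N1 f0 (by positivity) (by positivity))
                  (by positivity)
            _ = (4 * t ^ 2) * 48 ^ k * (L * L ^ (k - 1)) := by ring
            _ = (4 * t ^ 2) * 48 ^ k * L ^ k := by
                rw [← pow_succ']; congr 2; omega
            _ ≤ (2 * 48 ^ k * t) ^ 2 * L ^ k := by
                refine mul_le_mul_of_nonneg_right ?_ (by positivity)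
                have f4 : (48 : ℝ) ^ k ≤ (48 ^ k) ^ 2 := le_self_pow₀ f3 two_ne_zero
                calc (4 * t ^ 2) * 48 ^ k ≤ (4 * t ^ 2) * (48 ^ k) ^ 2 :=
                      mul_le_mul_of_nonneg_left f4 (by positivity)
                  _ = _ := by ring
        refine (Real.sqrt_le_sqrt f1).trans (le_of_eq ?_)
        rw [Real.sqrt_mul (by positivity), Real.sqrt_sq (by positivity), g0]; ring
      have g3 : 0 ≤ C₀ * (t * L ^ ((k : ℝ) / 2)) * 48 ^ k := by positivity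
      calc C₀ * (Real.sqrt (((2 * N : ℕ) : ℝ) * L ^ k) +
            Real.sqrt (((2 * N : ℕ) : ℝ) ^ (k + 1) * L ^ (k - 1)))
          ≤ C₀ * (2 * (t * L ^ ((k : ℝ) / 2)) + 2 * (48 ^ k * (t * L ^ ((k : ℝ) / 2)))) :=
            mul_le_mul_of_nonneg_left (add_le_add g1 g2) (by linarith)
        _ ≤ C₀ * (2 * (t * L ^ ((k : ℝ) / 2)) + 4 * (48 ^ k * (t * L ^ ((k : ℝ) / 2)))) := by
            linarith
        _ = b₁ * t * L ^ ((k : ℝ) / 2) := by rw [hb₁]; ring
    have hpr := Run7.h963.prob_lower (volume.restrict (Set.Icc (0 : Fin (k + 1) → ℝ) 1))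
      (fun x => |(m : ℝ) * H730R2.LU.ld ξ x|)
      ((H730R2.LU.measurable_ld ξ).const_mul _).abs (fun x => abs_nonneg _) N hN1
      (c₁ * t * L ^ ((k : ℝ) / 2)) (b₁ * t * L ^ ((k : ℝ) / 2)) (by positivity) (by positivity)
      hlow2 hup2
    have hab : c₁ * t * L ^ ((k : ℝ) / 2) / (b₁ * t * L ^ ((k : ℝ) / 2)) = c₁ / b₁ := by
      have : 0 < L ^ ((k : ℝ) / 2) := by positivity
      field_simp
    rw [hab] at hpr
    have hexp : Real.exp (-(C * t ^ 2)) ≤ 1 / 8 * (c₁ / b₁) ^ (4 * N) := by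
      have h1 : ρ ^ (4 * N) ≤ (c₁ / b₁) ^ (4 * N) :=
        pow_le_pow_left₀ hρ0.le (by rw [hρ]; exact min_le_left _ _) _
      have h2 : Real.exp (8 * t ^ 2 * Real.log ρ) ≤ ρ ^ (4 * N) := by
        have h3 : ρ ^ (4 * N) = Real.exp (((4 * N : ℕ) : ℝ) * Real.log ρ) := by
          rw [Real.exp_nat_mul, Real.exp_log hρ0]
        rw [h3]
        apply Real.exp_le_exp.2
        refine mul_le_mul_of_nonpos_right ?_ hlρ
        push_cast
        linarith
      have h4 : Real.exp (-3) ≤ 1 / 8 := by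
        rw [Real.exp_neg, ← one_div]
        refine one_div_le_one_div_of_le (by norm_num) ?_
        have h5 : (2 : ℝ) ≤ Real.exp 1 := by
          have := Real.add_one_le_exp (1 : ℝ)
          linarith
        calc (8 : ℝ) = 2 ^ 3 := by norm_num
          _ ≤ (Real.exp 1) ^ 3 := pow_le_pow_left₀ (by norm_num) h5 3
          _ = Real.exp 3 := by rw [← Real.exp_nat_mul]; norm_num
      calc Real.exp (-(C * t ^ 2)) ≤ Real.exp (-3 + 8 * t ^ 2 * Real.log ρ) := by
            apply Real.exp_le_exp.2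
            have h6 := mul_le_mul_of_nonneg_right hCl (by positivity : 0 ≤ t ^ 2)
            have h7 : (3 - 8 * Real.log ρ) * t ^ 2 = 3 * t ^ 2 - 8 * t ^ 2 * Real.log ρ := by ring
            linarith
        _ = Real.exp (-3) * Real.exp (8 * t ^ 2 * Real.log ρ) := Real.exp_add _ _
        _ ≤ 1 / 8 * (c₁ / b₁) ^ (4 * N) :=
            mul_le_mul h4 (h2.trans h1) (Real.exp_pos _).le (by norm_num)
    refine (ENNReal.ofReal_le_ofReal hexp).trans (hpr.trans ?_)
    rw [Measure.restrict_apply' measurableSet_Icc]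
    refine measure_mono fun x hx => ⟨hx.2, ?_⟩
    have h7 : c₁ * t * L ^ ((k : ℝ) / 2) / 2 < |(m : ℝ) * H730R2.LU.ld ξ x| := hx.1
    rw [localDisc_eq, div_lt_iff₀ hm0]
    rw [abs_mul, abs_of_pos hm0, mul_comm (m : ℝ)] at h7
    refine lt_of_le_of_lt ?_ h7
    have h8 : 0 ≤ t * L ^ ((k : ℝ) / 2) := by positivity
    calc c * t * L ^ ((k : ℝ) / 2) = c * (t * L ^ ((k : ℝ) / 2)) := by ring
      _ ≤ c₁ / 2 * (t * L ^ ((k : ℝ) / 2)) := mul_le_mul_of_nonneg_right hcc1 h8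
      _ = _ := by ring

end Pool.Agent.Results.MP_173de9_an.AllExponents
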