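import Pool.Agent.Run7.h331.OwQ

set_option autoImplicit false

/-!
# Linear scrambling of digital nets and sequences: no digital shift has a small star discrepancy

Random linear scrambling (Matoušek's affine matrix scrambling, Owen's random linear scrambling): the
generating matrix `C_j` of one coordinate of a digital `(t,n,s)`-net over `F_p` is replaced by `L C_j`,
where `L` is a random nonsingular lower triangular matrix; in the Toeplitz variant (Tezuka's
`i`-binomial scrambling) `L` is moreover constant along the diagonals. For all but a proportion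
`p^(-c n)` of the matrices `L`, EVERY digital shift of the resulting net has star discrepancy at least
`c n^(s-1) / p^n`, the order of the classical upper bound `(log N)^(s-1) / N`. For digital
`(t,s)`-sequences almost every infinite matrix `L` is such that every digital shift of the resulting
sequence has star discrepancy at least `c (log N)^s / N` for infinitely many `N`.
-/

namespace Pool.Agent.Results.MP_173de9_an.LinearScrambling

open Finset MeasureTheory Filter Matrix

/-- The local discrepancy `∏ x_j - (1/m) Σ_μ χ_{[0,x]}(ξ^μ)` of `m` points `ξ` at `x`. -/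
noncomputable def localDisc {m d : ℕ} (ξ : Fin m → Fin d → ℝ) (x : Fin d → ℝ) : ℝ :=
  ∏ j, x j - (1 / (m:ℝ)) * ∑ μ : Fin m, (Set.Icc (0 : Fin d → ℝ) x).indicator (fun _ => (1:ℝ)) (ξ μ)

/-- The star discrepancy `D(ξ,m,d)_∞` of the problem. -/
noncomputable def starDisc {m d : ℕ} (ξ : Fin m → Fin d → ℝ) : ENNReal :=
  eLpNorm (localDisc ξ) ⊤ (volume.restrict (Set.Icc (0 : Fin d → ℝ) 1))

/-- The `(k+1)`-st digit of `y ∈ [0,1)` in base `p`, as an element of `F_p`. -/
noncomputable def digit (p k : ℕ) (y : ℝ) : ZMod p := ((⌊(p:ℝ) ^ (k + 1) * y⌋₊ : ℕ) : ZMod p)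

open Classical in
/-- `(t,n,s)`-nets in base `b`: every elementary interval `∏ [v_i b^(-k_i), (v_i+1) b^(-k_i))` of
volume `b^(t-n)` contains exactly `b^t` of the `b^n` points. -/
def IsNet (b t n : ℕ) {s : ℕ} (ξ : Fin (b ^ n) → Fin s → ℝ) : Prop :=
  ∀ k v : Fin s → ℕ, ∑ i, k i + t = n → (∀ i, v i < b ^ k i) →
    (univ.filter (fun μ => ∀ i, (v i : ℝ) / (b:ℝ) ^ k i ≤ ξ μ i ∧
      ξ μ i < ((v i : ℝ) + 1) / (b:ℝ) ^ k i)).card = b ^ t

/-- `(t,s)`-sequences in base `b`: the `b^m` terms with the indices in `[l b^m, (l+1) b^m)` form a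
`(t,m,s)`-net, for all `l` and `m`. -/
def IsSeq (b t : ℕ) {s : ℕ} (x : ℕ → Fin s → ℝ) : Prop :=
  ∀ l m : ℕ, IsNet b t m (fun i : Fin (b ^ m) => x (l * b ^ m + i))

/-- The nonsingular lower triangular `n × n` matrices over `F_p`; if `toep` is `true`, only those which
are constant along the diagonals. -/
def Lower (p : ℕ) (toep : Bool) (n : ℕ) : Set (Matrix (Fin n) (Fin n) (ZMod p)) :=
  {L | (∀ k i, k < i → L k i = 0) ∧ (∀ k, L k k ≠ 0) ∧
    (toep = true → ∀ k i k' i' : Fin n, (k : ℕ) + i' = k' + i → L k i = L k' i')}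

/-- The infinite nonsingular lower triangular matrices over `F_p` (if `toep` is `true`: constant along
the diagonals). -/
def LowerInf (p : ℕ) (toep : Bool) : Set (ℕ → ℕ → ZMod p) :=
  {L | (∀ k i, k < i → L k i = 0) ∧ (∀ k, L k k ≠ 0) ∧
    (toep = true → ∀ k i k' i' : ℕ, k + i' = k' + i → L k i = L k' i')}

/-- The digit `k + 1` of the coordinate `j` of the `i`-th term of the digital sequence with the
generating matrices `C`: the `k`-th row of `C j` applied to the digits of `i`. -/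
noncomputable def seqDigit (p : ℕ) {s : ℕ} (C : Fin s → ℕ → ℕ → ZMod p) (i : ℕ) (j : Fin s) (k : ℕ) :
    ZMod p :=
  ∑ r ∈ range (i + 1), C j k r * ((i / p ^ r : ℕ) : ZMod p)

theorem net_of {b t n s : ℕ} (hb : 2 ≤ b) {ξ : Fin (b ^ n) → Fin s → ℝ}
    (hξ : ∀ μ j, 0 ≤ ξ μ j ∧ ξ μ j < 1) (h : IsNet b t n ξ) : Run7.h331.Ow.Net b t n ξ := by
  classical
  intro k v hk hv
  rw [← h k v hk hv, Run7.h331.Ow.cnt_eq]
  congr 1
  ext μ
  rw [mem_filter, mem_filter]
  simp only [Run7.h331.Ow.cell_iff b _ _ hb _ (hξ μ _).1]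

theorem cnt_le {Ω : Type} [Fintype Ω] (P Q : Ω → Prop) (h : ∀ ω, P ω → ¬ Q ω) :
    (Nat.card {ω // P ω} : ℝ) ≤ (Run7.h331.Ow.cnt (fun ω => ¬ Q ω) : ℝ) := by
  classical
  rw [Nat.card_eq_fintype_card, Fintype.card_subtype, ← Run7.h331.Ow.cnt_eq]
  exact Nat.cast_le.2 (Run7.h331.Ow.cnt_mono h)

/-- **Theorem.** Let `p` be a prime and `t ≥ 0`; `toep` chooses between all nonsingular lower triangular
matrices and the Toeplitz ones.

(1) Let `s ≥ 2`. There are `c > 0` and `n₀` such that for all `n ≥ n₀`, every digital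
`(t,n,s)`-net `ξ` over `F_p` (with the generating matrices `C_j`, the digital shift `w` and the
labelling `e` of the points by `F_p^n`) and every coordinate `j₀`: for all but a proportion
`p^(-c n)` of the matrices `L`, all digital shifts `w'` of the net with `C_{j₀}` replaced by
`L C_{j₀}` (with arbitrary digits after the `n`-th) have star discrepancy at least
`c n^(s-1) / p^n`.

(2) Let `s ≥ 1`. There is `c > 0` such that for every digital `(t,s)`-sequence `x` over `F_p` with the
generating matrices `C_j` and the digital shift `w` and every coordinate `j₀`: if `L` is a random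
infinite matrix all of whose `n × n` sections are uniformly distributed, then almost surely all
digital shifts `w'` of the digital sequence with `C_{j₀}` replaced by `L C_{j₀}` have star
discrepancy at least `c (log N)^s / N` for infinitely many `N`. -/
theorem result (p t : ℕ) [Fact p.Prime] :
    (∀ s : ℕ, 2 ≤ s → ∃ c : ℝ, 0 < c ∧ ∃ n₀ : ℕ, ∀ n : ℕ, n₀ ≤ n → ∀ toep : Bool,
      ∀ ξ : Fin (p ^ n) → Fin s → ℝ, (∀ μ j, 0 ≤ ξ μ j ∧ ξ μ j < 1) → IsNet p t n ξ →
      ∀ (e : Fin (p ^ n) ≃ (Fin n → ZMod p)) (C : Fin s → Matrix (Fin n) (Fin n) (ZMod p))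
        (w : Fin s → Fin n → ZMod p),
        (∀ μ j (k : Fin n), digit p k (ξ μ j) = (C j *ᵥ e μ) k + w j k) →
      ∀ j₀ : Fin s,
        (Nat.card {L : Lower p toep n // ∃ (w' : Fin s → Fin n → ZMod p)
          (η : Fin (p ^ n) → Fin s → ℝ), (∀ μ j, 0 ≤ η μ j ∧ η μ j < 1) ∧
          (∀ μ j (k : Fin n), digit p k (η μ j) =
            (if j = j₀ then ((L : Matrix (Fin n) (Fin n) (ZMod p)) *ᵥ (C j₀ *ᵥ e μ)) k
              else (C j *ᵥ e μ) k) + w' j k) ∧
          starDisc η < ENNReal.ofReal (c * (n:ℝ) ^ (s - 1) / (p:ℝ) ^ n)} : ℝ) ≤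
        (p:ℝ) ^ (-(c * n)) * Nat.card (Lower p toep n)) ∧
    (∀ s : ℕ, 1 ≤ s → ∃ c : ℝ, 0 < c ∧ ∀ toep : Bool,
      ∀ x : ℕ → Fin s → ℝ, (∀ i j, 0 ≤ x i j ∧ x i j < 1) → IsSeq p t x →
      ∀ (C : Fin s → ℕ → ℕ → ZMod p) (w : Fin s → ℕ → ZMod p),
        (∀ i j k, digit p k (x i j) = seqDigit p C i j k + w j k) →
      ∀ j₀ : Fin s,
      ∀ {Ω : Type} [MeasurableSpace Ω] (P : Measure Ω) (L : Ω → LowerInf p toep),
        (∀ (n : ℕ) (A : Lower p toep n), P {ω | ∀ k i : Fin n, (L ω : ℕ → ℕ → ZMod p) k i =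
          (A : Matrix (Fin n) (Fin n) (ZMod p)) k i} = ((Nat.card (Lower p toep n) : ENNReal))⁻¹) →
        ∀ᵐ ω ∂P, ∀ (w' : Fin s → ℕ → ZMod p) (η : ℕ → Fin s → ℝ), (∀ i j, 0 ≤ η i j ∧ η i j < 1) →
          (∀ i j k, digit p k (η i j) =
            (if j = j₀ then ∑ l ∈ range (k + 1), (L ω : ℕ → ℕ → ZMod p) k l * seqDigit p C i j₀ l
              else seqDigit p C i j k) + w' j k) →
          ∃ᶠ N : ℕ in atTop, ENNReal.ofReal (c * Real.log N ^ s / N) ≤
            starDisc (fun i : Fin N => η i)) := by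
  have hb : 2 ≤ p := (Fact.out : p.Prime).two_le
  refine ⟨?_, ?_⟩
  · intro s hs
    obtain ⟨c, hc, n₀, H⟩ := Run7.h331.Ow.main5 p t s hs
    refine ⟨c, hc, n₀, fun n hn toep ξ hξ hnet e C w hdig j₀ => ?_⟩
    have h1 := H n hn toep ξ hξ (net_of hb hξ hnet) e C w hdig j₀
    rw [← Nat.card_eq_fintype_card] at h1
    refine le_trans (cnt_le (Ω := Run7.h331.Ow.fam p toep n) _ _ ?_) h1
    rintro L ⟨w', η, hη, hηd, hlt⟩ hgood
    have h2 := (hgood w' η hη hηd).star hη
    push_cast at h2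
    exact absurd hlt (not_lt.2 h2)
  · intro s hs
    obtain ⟨c, hc, H⟩ := Run7.h331.Ow.main7 p t s hs
    refine ⟨c, hc, fun toep x hx hseq C w hdig j₀ {Ω} _ P L hL => ?_⟩
    refine H toep x hx (fun l m => net_of hb (fun μ j => hx _ _) (hseq l m)) C w hdig j₀ P L ?_
    intro n A
    rw [← Nat.card_eq_fintype_card]
    exact hL n A

end Pool.Agent.Results.MP_173de9_an.LinearScrambling
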