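import Pool.Agent.Run7.h667.SD.F

set_option autoImplicit false

/-!
# Large exponents for non-singular target measures, in every box

The lower bound for the discrepancy which grows with the exponent of the norm holds for every target
measure `μ` on `[0,1]^d`, `d ≥ 3`, inside every box in which `μ` is not singular, and it is not
changed by adding sums of functions of `d - 1` of the variables.
-/

namespace Pool.Agent.Results.MP_173de9_an.NonSingularLargeExponents

open MeasureTheory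

/-- The discrepancy function `∑_j w_j χ_{[0,x]}(ξ_j) - M μ([0,x])` of the points `ξ_j` with the weights
`w_j` with respect to `M` times the measure `μ`. -/
noncomputable def disc {n d : ℕ} (w : Fin n → ℝ) (ξ : Fin n → Fin d → ℝ) (M : ℝ)
    (μ : Measure (Fin d → ℝ)) (x : Fin d → ℝ) : ℝ :=
  ∑ j, (Set.Icc (0 : Fin d → ℝ) x).indicator (fun _ => w j) (ξ j) -
    M * (μ (Set.Icc (0 : Fin d → ℝ) x)).toReal

/-- `g` is a sum of `d` measurable functions, the `k`-th of which does not depend on `x_k`. -/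
def FewerVars {d : ℕ} (g : (Fin d → ℝ) → ℝ) : Prop :=
  ∃ h : Fin d → (Fin d → ℝ) → ℝ, (∀ k, Measurable (h k)) ∧
    (∀ (k : Fin d) (x : Fin d → ℝ) (t : ℝ), h k (Function.update x k t) = h k x) ∧
    g = fun x => ∑ k, h k x

/-- The growth factor: the smaller one of `√p` and `(ln N)^(1/(2d)) / (ln ln N)^(1/2)`. -/
noncomputable def growth (d : ℕ) (p : ENNReal) (N : ℕ) : ENNReal :=
  min (p ^ (1 / 2 : ℝ)) (ENNReal.ofReal
    ((Real.log N) ^ (1 / (2 * (d : ℝ))) / (Real.log (Real.log N)) ^ (1 / 2 : ℝ)))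

theorem ind_eq {d : ℕ} (p x : Fin d → ℝ) (hp : p ∈ Set.Icc (0 : Fin d → ℝ) 1) (a : ℝ) :
    (Set.Icc (0 : Fin d → ℝ) x).indicator (fun _ => a) p = if ∀ i, p i ≤ x i then a else 0 := by
  have hiff : p ∈ Set.Icc (0 : Fin d → ℝ) x ↔ ∀ i, p i ≤ x i :=
    ⟨fun h => h.2, fun h => ⟨hp.1, h⟩⟩
  by_cases hx : ∀ i, p i ≤ x i
  · rw [if_pos hx, Set.indicator_of_mem (hiff.2 hx)]
  · rw [if_neg hx, Set.indicator_of_notMem (fun h => hx (hiff.1 h))]

theorem disc_eq {n d : ℕ} (w : Fin n → ℝ) (ξ : Fin n → Fin d → ℝ)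
    (hξ : ∀ j, ξ j ∈ Set.Icc (0 : Fin d → ℝ) 1) (M : ℝ) (μ : Measure (Fin d → ℝ))
    (hμ : μ (Set.Icc (0 : Fin d → ℝ) 1)ᶜ = 0) (x : Fin d → ℝ) :
    disc w ξ M μ x = TH635.NS.DM Finset.univ w ξ M μ x := by
  unfold disc TH635.NS.DM
  congr 1
  · apply Finset.sum_congr rfl
    intro j _
    rw [ind_eq _ _ (hξ j)]
  · rw [measureReal_def]
    congr 2
    apply le_antisymm
    · exact measure_mono fun z hz => hz.2
    · calc μ (Set.Iic x) ≤ μ (Set.Icc (0 : Fin d → ℝ) x ∪ (Set.Icc (0 : Fin d → ℝ) 1)ᶜ) := by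
            apply measure_mono
            intro z hz
            by_cases h : z ∈ Set.Icc (0 : Fin d → ℝ) 1
            · exact Or.inl ⟨h.1, hz⟩
            · exact Or.inr h
        _ ≤ μ (Set.Icc (0 : Fin d → ℝ) x) + μ (Set.Icc (0 : Fin d → ℝ) 1)ᶜ := measure_union_le _ _
        _ = _ := by rw [hμ, add_zero]

/-- **Theorem.** Let `d ≥ 3`, let `μ` be a probability measure on `[0,1]^d` and let `Q = [a,b]` be a
non-degenerate box in `[0,1]^d` such that the restriction of `μ` to `Q` is not singular with respect to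
Lebesgue measure.  Then for every `K` there is `c > 0` such that for all large `N`, at most `K N`
points of `[0,1]^d`, arbitrary real weights, every sum `g` of functions of fewer variables and every
`1 ≤ p ≤ ∞` the `L_p(Q)` norm of the discrepancy function with respect to `N μ`, minus `g`, is at least
`c (ln N)^((d-1)/2)` times the smaller one of `√p` and `(ln N)^(1/(2d)) / (ln ln N)^(1/2)`. -/
theorem result (d : ℕ) (hd : 3 ≤ d) (μ : Measure (Fin d → ℝ)) (hμ1 : IsProbabilityMeasure μ)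
    (hμ : μ (Set.Icc (0 : Fin d → ℝ) 1)ᶜ = 0)
    (a b : Fin d → ℝ) (ha : ∀ i, 0 ≤ a i) (hab : ∀ i, a i < b i) (hb : ∀ i, b i ≤ 1)
    (hns : ¬ (μ.restrict (Set.Icc a b)).MutuallySingular volume) (K : ℝ) :
    ∃ c : ℝ, 0 < c ∧ ∃ N₀ : ℕ, ∀ N : ℕ, N₀ ≤ N → ∀ n : ℕ, (n : ℝ) ≤ K * N →
      ∀ (w : Fin n → ℝ) (ξ : Fin n → Fin d → ℝ), (∀ j, ξ j ∈ Set.Icc (0 : Fin d → ℝ) 1) →
      ∀ g : (Fin d → ℝ) → ℝ, FewerVars g → ∀ p : ENNReal, 1 ≤ p →
        ENNReal.ofReal (c * (Real.log N) ^ (((d : ℝ) - 1) / 2)) * growth d p N ≤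
          eLpNorm (fun x => disc w ξ N μ x - g x) p (volume.restrict (Set.Icc a b)) := by
  obtain ⟨c, hc, N₀, H⟩ := Run7.h667.SD.box_all d hd μ (le_of_eq measure_univ) a b hab
    (fun i => by linarith [ha i, hb i]) hns K
  refine ⟨c, hc, N₀, fun N hN n hn w ξ hξ g hg p hp => ?_⟩
  obtain ⟨h, hm, hi, rfl⟩ := hg
  have h1 := H N hN n hn w ξ (fun x => ∑ k, - h k x)
    (Finset.measurable_fun_sum _ fun k _ => (hm k).neg)
    (Run7.h667.SD.noMix_sum (fun k x => - h k x) (fun k x t => by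
      show - h k (Function.update x k t) = - h k x
      rw [hi k x t])) p hp
  have h2 : (fun x => disc w ξ N μ x - ∑ k, h k x) =
      Run7.h667.SD.Dg w ξ N μ (fun x => ∑ k, - h k x) := by
    funext x
    unfold Run7.h667.SD.Dg
    rw [disc_eq w ξ hξ _ μ hμ x]
    simp only [Finset.sum_neg_distrib]
    ring
  unfold growth
  rw [h2]
  exact h1

end Pool.Agent.Results.MP_173de9_an.NonSingularLargeExponents
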