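import Pool.Agent.Run7.h331.OwL

set_option autoImplicit false

/-!
# The star discrepancy of scrambled nets and sequences

Owen's scrambling (nested uniform scrambling) of `(t,n,s)`-nets in base `b`: the first digits of all
the points are permuted by one random permutation, the second digits by random permutations depending
on the first digit, and so on, in each coordinate. For EVERY net, all but a proportion
`exp(-b^(c n))` of the scramblings have star discrepancy at least `c n^(s-1) / b^n`, which is the order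
`(log N)^(s-1) / N` of the classical upper bound for nets. The permutations may be restricted to any
balanced set (for instance the `b` cyclic shifts of the digits, or any transitive group). For
homogeneous nets, in particular for all digital nets, the scrambling of a single coordinate suffices.
For digital `(t,s)`-sequences almost every scrambling of one or more coordinates gives star
discrepancy at least `c (log N)^s / N` for infinitely many `N`.
-/

namespace Pool.Agent.Results.MP_173de9_an.OwenScrambling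

open Finset MeasureTheory Filter

/-- The local discrepancy `∏ x_j - (1/m) Σ_μ χ_{[0,x]}(ξ^μ)` of `m` points `ξ` at `x`. -/
noncomputable def localDisc {m d : ℕ} (ξ : Fin m → Fin d → ℝ) (x : Fin d → ℝ) : ℝ :=
  ∏ j, x j - (1 / (m:ℝ)) * ∑ μ : Fin m, (Set.Icc (0 : Fin d → ℝ) x).indicator (fun _ => (1:ℝ)) (ξ μ)

/-- The star discrepancy `D(ξ,m,d)_∞` of the problem. -/
noncomputable def starDisc {m d : ℕ} (ξ : Fin m → Fin d → ℝ) : ENNReal :=
  eLpNorm (localDisc ξ) ⊤ (volume.restrict (Set.Icc (0 : Fin d → ℝ) 1))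

/-- The integer formed by the first `k` digits of `y ∈ [0,1)` in base `b`; so the `(k+1)`-st digit of
`y` is `pre b (k + 1) y % b`. -/
noncomputable def pre (b k : ℕ) (y : ℝ) : ℕ := ⌊(b:ℝ) ^ k * y⌋₊

open Classical in
/-- `(t,n,s)`-nets in base `b`: every elementary interval `∏ [v_i b^(-k_i), (v_i+1) b^(-k_i))` of
volume `b^(t-n)` contains exactly `b^t` of the `b^n` points. -/
def IsNet (b t n : ℕ) {s : ℕ} (ξ : Fin (b ^ n) → Fin s → ℝ) : Prop :=
  ∀ k v : Fin s → ℕ, ∑ i, k i + t = n → (∀ i, v i < b ^ k i) →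
    (univ.filter (fun μ => ∀ i, (v i : ℝ) / (b:ℝ) ^ k i ≤ ξ μ i ∧
      ξ μ i < ((v i : ℝ) + 1) / (b:ℝ) ^ k i)).card = b ^ t

/-- `(t,s)`-sequences in base `b`: the `b^m` terms with the indices in `[l b^m, (l+1) b^m)` form a
`(t,m,s)`-net, for all `l` and `m`. -/
def IsSeq (b t : ℕ) {s : ℕ} (x : ℕ → Fin s → ℝ) : Prop :=
  ∀ l m : ℕ, IsNet b t m (fun i : Fin (b ^ m) => x (l * b ^ m + i))

/-- A set of permutations of the digits is balanced if every digit is sent to every digit by the same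
number of its elements. -/
def Balanced {b : ℕ} (Γ : Finset (Equiv.Perm (Fin b))) : Prop :=
  Γ.Nonempty ∧ ∀ d e : Fin b, (Γ.filter (fun π => π d = e)).card * b = Γ.card

/-- `η` arises from `ξ` by the nested scrambling `σ` of the first `n` digits of the coordinates in `J`:
`σ (j, k, v)` is the permutation which is applied in the coordinate `j ∈ J` to the `(k+1)`-st digit
of the points whose first `k` digits form the integer `v`. The later digits of these coordinates are
arbitrary, and the coordinates outside of `J` are kept. -/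
def Scrambled {b n s N : ℕ} (Γ : Finset (Equiv.Perm (Fin b))) (J : Finset (Fin s))
    (σ : Fin s × Fin n × Fin (b ^ n) → Γ) (ξ η : Fin N → Fin s → ℝ) : Prop :=
  ∀ μ j, (0 ≤ η μ j ∧ η μ j < 1) ∧ (j ∉ J → η μ j = ξ μ j) ∧
    (j ∈ J → ∀ (k : Fin n) (v : Fin (b ^ n)) (c : Fin b), (v : ℕ) = pre b k (ξ μ j) →
      (c : ℕ) = pre b (k + 1) (ξ μ j) % b →
        pre b (k + 1) (η μ j) % b = ((σ (j, k, v) : Equiv.Perm (Fin b)) c : ℕ))

/-- Homogeneous point sets: seen from any two of its points the set has the same pattern of common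
initial digits (up to the `n`-th digit). -/
def Homogeneous (b n : ℕ) {s N : ℕ} (ξ : Fin N → Fin s → ℝ) : Prop :=
  ∀ μ ν : Fin N, ∃ τ : Equiv.Perm (Fin N), τ μ = ν ∧ ∀ κ j k, k ≤ n →
    (pre b k (ξ κ j) = pre b k (ξ μ j) ↔ pre b k (ξ (τ κ) j) = pre b k (ξ ν j))

/-- Digital point sets over `Z/b` (digital shifts are allowed): the first `n` digits of each coordinate
are affine functions of a label in `(Z/b)^n`, and every label occurs once. -/
def IsDigital (b n : ℕ) {s N : ℕ} (ξ : Fin N → Fin s → ℝ) : Prop :=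
  ∃ (e : Fin N ≃ (Fin n → ZMod b)) (C : Fin s → (Fin n → ZMod b) →+ (Fin n → ZMod b))
    (w : Fin s → Fin n → ZMod b), ∀ μ j (k : Fin n),
      ((pre b (k + 1) (ξ μ j) : ℕ) : ZMod b) = C j (e μ) k + w j k

/-- Digital sequences over `Z/b` (digital shifts are allowed): the digits of the coordinates of `x_i`
are affine functions of the digits of `i`, given by infinite matrices. -/
def IsDigitalSeq (b : ℕ) {s : ℕ} (x : ℕ → Fin s → ℝ) : Prop :=
  ∃ (C : Fin s → ℕ → ℕ → ZMod b) (w : Fin s → ℕ → ZMod b), ∀ (i : ℕ) (j : Fin s) (k : ℕ),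
    ((pre b (k + 1) (x i j) : ℕ) : ZMod b) =
      ∑ r ∈ range (i + 1), C j k r * ((i / b ^ r : ℕ) : ZMod b) + w j k

/-- `η` arises from the sequence `x` by the nested scrambling `τ` of all the digits of the coordinates
in `J`; the other coordinates are kept. -/
def ScrambledSeq {b s : ℕ} (Γ : Finset (Equiv.Perm (Fin b))) (J : Finset (Fin s))
    (τ : Fin s × ℕ × ℕ → Γ) (x η : ℕ → Fin s → ℝ) : Prop :=
  ∀ i j, (0 ≤ η i j ∧ η i j < 1) ∧ (j ∉ J → η i j = x i j) ∧
    (j ∈ J → ∀ (k v : ℕ) (c : Fin b), v = pre b k (x i j) → (c : ℕ) = pre b (k + 1) (x i j) % b →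
        pre b (k + 1) (η i j) % b = ((τ (j, k, v) : Equiv.Perm (Fin b)) c : ℕ))

/-! ### The set of all permutations and the elements of a transitive group are balanced -/

theorem balanced_of_transitive {b : ℕ} (G : Subgroup (Equiv.Perm (Fin b)))
    (Γ : Finset (Equiv.Perm (Fin b))) (hΓ : ∀ π, π ∈ Γ ↔ π ∈ G)
    (htrans : ∀ d e : Fin b, ∃ π ∈ G, π d = e) : Balanced Γ := by
  classical
  refine ⟨⟨1, (hΓ 1).2 G.one_mem⟩, fun d e => ?_⟩
  have key : ∀ e' : Fin b, (Γ.filter (fun π => π d = e')).card = (Γ.filter (fun π => π d = e)).card := by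
    intro e'
    obtain ⟨g, hg, hge⟩ := htrans e' e
    apply Finset.card_bij (fun π _ => g * π)
    · intro π hπ
      rw [mem_filter] at hπ ⊢
      exact ⟨(hΓ _).2 (G.mul_mem hg ((hΓ _).1 hπ.1)), by rw [Equiv.Perm.mul_apply, hπ.2, hge]⟩
    · intro π _ π' _ h
      exact mul_left_cancel h
    · intro π hπ
      rw [mem_filter] at hπ
      refine ⟨g⁻¹ * π, ?_, by rw [mul_inv_cancel_left]⟩
      rw [mem_filter]
      refine ⟨(hΓ _).2 (G.mul_mem (G.inv_mem hg) ((hΓ _).1 hπ.1)), ?_⟩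
      rw [Equiv.Perm.mul_apply, hπ.2, ← hge]
      exact Equiv.symm_apply_apply g e'
  have h1 : Γ.card = ∑ e' : Fin b, (Γ.filter (fun π => π d = e')).card :=
    Finset.card_eq_sum_card_fiberwise (fun π _ => Finset.mem_coe.2 (Finset.mem_univ (π d)))
  rw [h1, Finset.sum_congr rfl (fun e' _ => key e'), Finset.sum_const, Finset.card_univ,
    Fintype.card_fin, smul_eq_mul, mul_comm]

theorem balanced_univ {b : ℕ} : Balanced (univ : Finset (Equiv.Perm (Fin b))) :=
  balanced_of_transitive ⊤ univ (by simp) (fun d e => ⟨Equiv.swap d e, by simp, by simp⟩)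

/-! ### Translation -/

theorem net_of {b t n s : ℕ} (hb : 2 ≤ b) {ξ : Fin (b ^ n) → Fin s → ℝ}
    (hξ : ∀ μ j, 0 ≤ ξ μ j ∧ ξ μ j < 1) (h : IsNet b t n ξ) : Run7.h331.Ow.Net b t n ξ := by
  classical
  intro k v hk hv
  rw [← h k v hk hv, Run7.h331.Ow.cnt_eq]
  congr 1
  ext μ
  rw [mem_filter, mem_filter]
  simp only [Run7.h331.Ow.cell_iff b _ _ hb _ (hξ μ _).1]

theorem cnt_le {Ω : Type} [Fintype Ω] (P Q : Ω → Prop) (h : ∀ ω, P ω → ¬ Q ω) :
    (Nat.card {ω // P ω} : ℝ) ≤ (Run7.h331.Ow.cnt (fun ω => ¬ Q ω) : ℝ) := by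
  classical
  rw [Nat.card_eq_fintype_card, Fintype.card_subtype, ← Run7.h331.Ow.cnt_eq]
  exact Nat.cast_le.2 (Run7.h331.Ow.cnt_mono h)

/-- **Theorem.** Let `b ≥ 2` and `t ≥ 0`.

(1) Let `s ≥ 2`. There are `c > 0` and `n₀` such that for all `n ≥ n₀`, all balanced `Γ`, EVERY
`(t,n,s)`-net `ξ` and every nonempty set `J` of coordinates, where `J` is the set of all the
coordinates or `ξ` is homogeneous: for all but a proportion `exp(-b^(c n))` of the families `σ` of
permutations in `Γ`, every point set which arises from `ξ` by the scrambling `σ` of the coordinates in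
`J` has star discrepancy at least `c n^(s-1) / b^n`.

(2) Digital point sets are homogeneous.

(3) Let `s ≥ 1`. There are `c > 0` and `n₀` such that for all `n ≥ n₀`, all balanced `Γ`, every
digital `(t,s)`-sequence `x` and every nonempty set `J` of coordinates: for all but a proportion
`exp(-b^(c n))` of the families `σ`, every sequence which arises from `x` by the scrambling `σ` of the
coordinates in `J` (of the first `b^n` terms) has star discrepancy at least `c n^s / N` for some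
`N ≤ b^n`.

(4) Let `s ≥ 1`. There is `c > 0` such that for all balanced `Γ`, every digital `(t,s)`-sequence `x`
and every nonempty set `J` of coordinates: if the permutations `π (j,k,v)` are independent and
uniformly distributed in `Γ`, then almost surely every sequence which arises from `x` by the
scrambling of all the digits of the coordinates in `J` has star discrepancy at least
`c (log N)^s / N` for infinitely many `N`. -/
theorem result (b t : ℕ) (hb : 2 ≤ b) :
    (∀ s : ℕ, 2 ≤ s → ∃ c : ℝ, 0 < c ∧ ∃ n₀ : ℕ, ∀ n : ℕ, n₀ ≤ n →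
      ∀ Γ : Finset (Equiv.Perm (Fin b)), Balanced Γ →
      ∀ ξ : Fin (b ^ n) → Fin s → ℝ, (∀ μ j, 0 ≤ ξ μ j ∧ ξ μ j < 1) → IsNet b t n ξ →
      ∀ J : Finset (Fin s), J.Nonempty → (J = univ ∨ Homogeneous b n ξ) →
        (Nat.card {σ : Fin s × Fin n × Fin (b ^ n) → Γ // ∃ η : Fin (b ^ n) → Fin s → ℝ,
          Scrambled Γ J σ ξ η ∧
            starDisc η < ENNReal.ofReal (c * (n:ℝ) ^ (s - 1) / (b:ℝ) ^ n)} : ℝ) ≤
        Real.exp (-(b:ℝ) ^ (c * n)) * Nat.card (Fin s × Fin n × Fin (b ^ n) → Γ)) ∧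
    (∀ (s n : ℕ) (ξ : Fin (b ^ n) → Fin s → ℝ), (∀ μ j, 0 ≤ ξ μ j ∧ ξ μ j < 1) →
      IsDigital b n ξ → Homogeneous b n ξ) ∧
    (∀ s : ℕ, 1 ≤ s → ∃ c : ℝ, 0 < c ∧ ∃ n₀ : ℕ, ∀ n : ℕ, n₀ ≤ n →
      ∀ Γ : Finset (Equiv.Perm (Fin b)), Balanced Γ →
      ∀ x : ℕ → Fin s → ℝ, (∀ i j, 0 ≤ x i j ∧ x i j < 1) → IsSeq b t x → IsDigitalSeq b x →
      ∀ J : Finset (Fin s), J.Nonempty →
        (Nat.card {σ : Fin s × Fin n × Fin (b ^ n) → Γ // ∃ η : ℕ → Fin s → ℝ,
          Scrambled Γ J σ (fun μ : Fin (b ^ n) => x μ) (fun μ : Fin (b ^ n) => η μ) ∧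
            ∀ N : ℕ, 1 ≤ N → N ≤ b ^ n →
              starDisc (fun i : Fin N => η i) < ENNReal.ofReal (c * (n:ℝ) ^ s / N)} : ℝ) ≤
        Real.exp (-(b:ℝ) ^ (c * n)) * Nat.card (Fin s × Fin n × Fin (b ^ n) → Γ)) ∧
    (∀ s : ℕ, 1 ≤ s → ∃ c : ℝ, 0 < c ∧
      ∀ Γ : Finset (Equiv.Perm (Fin b)), Balanced Γ →
      ∀ x : ℕ → Fin s → ℝ, (∀ i j, 0 ≤ x i j ∧ x i j < 1) → IsSeq b t x → IsDigitalSeq b x →
      ∀ J : Finset (Fin s), J.Nonempty →
      ∀ {Ω : Type} [MeasurableSpace Ω] (P : Measure Ω) (π : Fin s × ℕ × ℕ → Ω → Γ),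
        (∀ (S : Finset (Fin s × ℕ × ℕ)) (f : Fin s × ℕ × ℕ → Γ),
          P {ω | ∀ p ∈ S, π p ω = f p} = ((Γ.card : ENNReal)⁻¹) ^ S.card) →
        ∀ᵐ ω ∂P, ∀ η : ℕ → Fin s → ℝ, ScrambledSeq Γ J (fun p => π p ω) x η →
          ∃ᶠ N : ℕ in atTop, ENNReal.ofReal (c * Real.log N ^ s / N) ≤
            starDisc (fun i : Fin N => η i)) := by
  refine ⟨?_, ?_, ?_, ?_⟩
  · intro s hs
    obtain ⟨c, hc, n₀, H⟩ := Run7.h331.Ow.mainJ b t s hb hs
    refine ⟨c, hc, n₀, fun n hn Γ hΓ ξ hξ hnet J hJ hJh => ?_⟩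
    have h1 := H n hn Γ hΓ.1 hΓ.2 ξ hξ (net_of hb hξ hnet) J hJ hJh
    rw [← Nat.card_eq_fintype_card] at h1
    refine le_trans (cnt_le _ _ ?_) h1
    rintro σ ⟨η, hη, hlt⟩ hgood
    have h2 := (hgood η hη).star (fun q j => (hη q j).1)
    push_cast at h2
    exact absurd hlt (not_lt.2 h2)
  · intro s n ξ hξ h
    exact Run7.h331.Ow.Digital.homog hb ξ hξ h
  · intro s hs
    obtain ⟨c, hc, n₀, H⟩ := Run7.h331.Ow.main3 b t s hb hs
    refine ⟨c, hc, n₀, fun n hn Γ hΓ x hx hseq hdig J hJ => ?_⟩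
    have h1 := H n hn Γ hΓ.1 hΓ.2 x hx (fun l m => net_of hb (fun μ j => hx _ _) (hseq l m)) hdig J hJ
    rw [← Nat.card_eq_fintype_card] at h1
    refine le_trans (cnt_le _ _ ?_) h1
    rintro σ ⟨η, hη, hlt⟩ hgood
    obtain ⟨N, hN1, hN2, hbig⟩ := hgood η hη
    have h2 := hbig.star (fun q j => (hη ⟨q, lt_of_lt_of_le q.2 hN2⟩ j).1)
    exact absurd (hlt N hN1 hN2) (not_lt.2 h2)
  · intro s hs
    obtain ⟨c, hc, H⟩ := Run7.h331.Ow.main4 b t s hb hs
    refine ⟨c, hc, fun Γ hΓ x hx hseq hdig J hJ {Ω} _ P π hind => ?_⟩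
    exact H Γ hΓ.1 hΓ.2 x hx (fun l m => net_of hb (fun μ j => hx _ _) (hseq l m)) hdig J hJ P π hind

end Pool.Agent.Results.MP_173de9_an.OwenScrambling
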